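import Mathlib
import Pool.Agent.V1149.Labeling.Basic

/-!
# Which ladders of even length are super edge-magic?

For even `n ≥ 2` the ladder `L_n = P_n □ P_2` is super edge-magic if and only if `n ≥ 4`.
-/

namespace Pool.Agent.Results.MP_4fbecc_co.LadderSEM

open Pool.Agent.V1149.Labeling SimpleGraph

/-- The ladder `L_n = P_n □ P_2`. -/
def ladder (n : ℕ) : SimpleGraph (Fin n × Fin 2) := (pathGraph n) □ (pathGraph 2)

lemma ladder_card_edges (n : ℕ) : Nat.card (ladder n).edgeSet ≤ 3 * n - 2 := by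
  classical
  rcases Nat.eq_zero_or_pos n with hn | hn
  · subst hn
    have : IsEmpty (ladder 0).edgeSet := by
      constructor
      rintro ⟨e, he⟩
      induction e using Sym2.ind with
      | _ u v => exact u.1.elim0
    simp
  -- a surjection from `Fin n ⊕ (Fin (n-1) × Fin 2)`
  let F : (Fin n ⊕ (Fin (n - 1) × Fin 2)) → (ladder n).edgeSet := fun x =>
    match x with
    | Sum.inl i => ⟨s((i, 0), (i, 1)), by
        show (ladder n).Adj (i, 0) (i, 1)
        unfold ladder
        rw [boxProd_adj]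
        right
        simp [pathGraph_adj]⟩
    | Sum.inr (i, r) => ⟨s((⟨i.val, by omega⟩, r), (⟨i.val + 1, by omega⟩, r)), by
        show (ladder n).Adj (⟨i.val, by omega⟩, r) (⟨i.val + 1, by omega⟩, r)
        unfold ladder
        rw [boxProd_adj]
        left
        simp [pathGraph_adj]⟩
  have hF : Function.Surjective F := by
    rintro ⟨e, he⟩
    induction e using Sym2.ind with
    | _ u v =>
      obtain ⟨i, r⟩ := u
      obtain ⟨j, s⟩ := v
      have he' : (ladder n).Adj (i, r) (j, s) := he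
      unfold ladder at he'
      rw [boxProd_adj] at he'
      simp only [pathGraph_adj] at he'
      rcases he' with ⟨h1 | h1, h2⟩ | ⟨h1 | h1, h2⟩
      · subst h2
        refine ⟨Sum.inr (⟨i.val, by have := j.2; omega⟩, r), ?_⟩
        apply Subtype.ext
        have hj : (⟨i.val + 1, by have := j.2; omega⟩ : Fin n) = j := Fin.ext h1
        show s((i, r), ((⟨i.val + 1, _⟩ : Fin n), r)) = s((i, r), (j, r))
        rw [hj]
      · subst h2
        refine ⟨Sum.inr (⟨j.val, by have := i.2; omega⟩, r), ?_⟩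
        apply Subtype.ext
        have hi : (⟨j.val + 1, by have := i.2; omega⟩ : Fin n) = i := Fin.ext h1
        show s((j, r), ((⟨j.val + 1, _⟩ : Fin n), r)) = s((i, r), (j, r))
        rw [hi]
        exact Sym2.eq_swap
      · subst h2
        have hr : r = 0 := by apply Fin.ext; have := s.2; simp; omega
        have hs : s = 1 := by apply Fin.ext; have := s.2; simp; omega
        subst hr hs
        exact ⟨Sum.inl i, rfl⟩
      · subst h2
        have hr : r = 1 := by apply Fin.ext; have := r.2; simp; omega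
        have hs : s = 0 := by apply Fin.ext; have := r.2; simp; omega
        subst hr hs
        exact ⟨Sum.inl i, Subtype.ext Sym2.eq_swap⟩
  have h := Nat.card_le_card_of_surjective F hF
  refine h.trans ?_
  rw [Nat.card_eq_fintype_card, Fintype.card_sum, Fintype.card_prod, Fintype.card_fin,
    Fintype.card_fin, Fintype.card_fin]
  omega

/-- Criterion for ladders with columns numbered `1, ..., n`. -/
lemma ladder_sem (n k : ℕ) (U W : ℕ → ℕ)
    (hv : ∀ l, 1 ≤ l → l ≤ 2 * n → ∃ i, 1 ≤ i ∧ i ≤ n ∧ (U i = l ∨ W i = l))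
    (he : ∀ t, k ≤ t → t < k + (3 * n - 2) → ∃ i, 1 ≤ i ∧
      ((i ≤ n ∧ U i + W i = t) ∨ (i + 1 ≤ n ∧ U i + U (i + 1) = t) ∨
        (i + 1 ≤ n ∧ W i + W (i + 1) = t))) :
    IsSuperEdgeMagic (ladder n) := by
  refine sem_of (ladder n) (fun x => if x.2 = 0 then U (x.1.val + 1) else W (x.1.val + 1))
    (2 * n) k (3 * n - 2) ?_ (ladder_card_edges n) ?_ ?_
  · rw [Nat.card_eq_fintype_card, Fintype.card_prod, Fintype.card_fin, Fintype.card_fin]
    omega
  · intro l h1 h2
    obtain ⟨i, hi1, hi2, h | h⟩ := hv l h1 (by omega)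
    · refine ⟨(⟨i - 1, by omega⟩, 0), ?_⟩
      simp only [if_true, Nat.sub_add_cancel hi1]
      exact h
    · refine ⟨(⟨i - 1, by omega⟩, 1), ?_⟩
      simp only [Nat.sub_add_cancel hi1]
      simpa using h
  · intro t h1 h2
    obtain ⟨i, hi1, ⟨hi2, h⟩ | ⟨hi2, h⟩ | ⟨hi2, h⟩⟩ := he t h1 h2
    · refine ⟨(⟨i - 1, by omega⟩, 0), (⟨i - 1, by omega⟩, 1), ?_, ?_⟩
      · unfold ladder
        rw [boxProd_adj]
        right
        simp [pathGraph_adj]
      · simp only [Nat.sub_add_cancel hi1]
        simpa using h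
    · refine ⟨(⟨i - 1, by omega⟩, 0), (⟨i, by omega⟩, 0), ?_, ?_⟩
      · unfold ladder
        rw [boxProd_adj]
        left
        simp only [pathGraph_adj, and_true]
        left
        exact Nat.sub_add_cancel hi1
      · simp only [Nat.sub_add_cancel hi1]
        simpa using h
    · refine ⟨(⟨i - 1, by omega⟩, 1), (⟨i, by omega⟩, 1), ?_, ?_⟩
      · unfold ladder
        rw [boxProd_adj]
        left
        simp only [pathGraph_adj, and_true]
        left
        exact Nat.sub_add_cancel hi1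
      · simp only [Nat.sub_add_cancel hi1]
        simpa using h

/-! ### The family `n = 2 h`, `h ≥ 6` even -/

/-- First row for even `h`. -/
def UA (h i : ℕ) : ℕ :=
  if i = 1 then 1 else if i = 2 then 2 * h + 2
  else if i ≤ h + 1 then (if i % 2 = 1 then (i + 1) / 2 else h + i / 2)
  else if i = h + 2 then (i + 2) / 2
  else if i = h + 3 then 3 * h + h / 2 + 1
  else if i = 2 * h then h + 1
  else (if i % 2 = 0 then 2 * h + i / 2 else 3 * h + (i - 1) / 2)

/-- Second row for even `h`. -/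
def WA (h i : ℕ) : ℕ :=
  if i = 1 then 2 * h + 1 else if i = 2 then 4 * h
  else if i ≤ h + 1 then (if i % 2 = 1 then 3 * h + (i - 3) / 2 else 2 * h + 1 + i / 2)
  else if i = h + 2 then 3 * h + h / 2
  else if i = h + 3 then h + h / 2 + 1
  else if i = 2 * h then 2 * h
  else (if i % 2 = 0 then h + i / 2 else (i + 1) / 2)

theorem famA_v (h : ℕ) (h4 : 6 ≤ h) (he : h % 2 = 0) (l : ℕ) (h1 : 1 ≤ l) (h2 : l ≤ 2 * (2 * h)) :
    ∃ i, 1 ≤ i ∧ i ≤ 2 * h ∧ (UA h i = l ∨ WA h i = l) := by
  by_cases c1 : l = 1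
  · exact ⟨1, by omega, by omega,
      Or.inl (by unfold UA; (repeat (first | rw [if_pos (by omega)] | rw [if_neg (by omega)])) <;>
        (first | omega | (split_ifs <;> omega)))⟩
  by_cases c2 : l ≤ h / 2 + 1
  · exact ⟨2 * l - 1, by omega, by omega,
      Or.inl (by unfold UA; (repeat (first | rw [if_pos (by omega)] | rw [if_neg (by omega)])) <;>
        (first | omega | (split_ifs <;> omega)))⟩
  by_cases c3 : l = h / 2 + 2
  · exact ⟨h + 2, by omega, by omega,
      Or.inl (by unfold UA; (repeat (first | rw [if_pos (by omega)] | rw [if_neg (by omega)])) <;>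
        (first | omega | (split_ifs <;> omega)))⟩
  by_cases c4 : l ≤ h
  · exact ⟨2 * l - 1, by omega, by omega,
      Or.inr (by unfold WA; (repeat (first | rw [if_pos (by omega)] | rw [if_neg (by omega)])) <;>
        (first | omega | (split_ifs <;> omega)))⟩
  by_cases c5 : l = h + 1
  · exact ⟨2 * h, by omega, by omega,
      Or.inl (by unfold UA; (repeat (first | rw [if_pos (by omega)] | rw [if_neg (by omega)])) <;>
        (first | omega | (split_ifs <;> omega)))⟩
  by_cases c6 : l ≤ h + h / 2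
  · exact ⟨2 * (l - h), by omega, by omega,
      Or.inl (by unfold UA; (repeat (first | rw [if_pos (by omega)] | rw [if_neg (by omega)])) <;>
        (first | omega | (split_ifs <;> omega)))⟩
  by_cases c7 : l = h + h / 2 + 1
  · exact ⟨h + 3, by omega, by omega,
      Or.inr (by unfold WA; (repeat (first | rw [if_pos (by omega)] | rw [if_neg (by omega)])) <;>
        (first | omega | (split_ifs <;> omega)))⟩
  by_cases c8 : l ≤ 2 * h - 1
  · exact ⟨2 * (l - h), by omega, by omega,
      Or.inr (by unfold WA; (repeat (first | rw [if_pos (by omega)] | rw [if_neg (by omega)])) <;>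
        (first | omega | (split_ifs <;> omega)))⟩
  by_cases c9 : l = 2 * h
  · exact ⟨2 * h, by omega, by omega,
      Or.inr (by unfold WA; (repeat (first | rw [if_pos (by omega)] | rw [if_neg (by omega)])) <;>
        (first | omega | (split_ifs <;> omega)))⟩
  by_cases c10 : l = 2 * h + 1
  · exact ⟨1, by omega, by omega,
      Or.inr (by unfold WA; (repeat (first | rw [if_pos (by omega)] | rw [if_neg (by omega)])) <;>
        (first | omega | (split_ifs <;> omega)))⟩
  by_cases c11 : l = 2 * h + 2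
  · exact ⟨2, by omega, by omega,
      Or.inl (by unfold UA; (repeat (first | rw [if_pos (by omega)] | rw [if_neg (by omega)])) <;>
        (first | omega | (split_ifs <;> omega)))⟩
  by_cases c12 : l ≤ 2 * h + 1 + h / 2
  · exact ⟨2 * (l - 2 * h - 1), by omega, by omega,
      Or.inr (by unfold WA; (repeat (first | rw [if_pos (by omega)] | rw [if_neg (by omega)])) <;>
        (first | omega | (split_ifs <;> omega)))⟩
  by_cases c13 : l ≤ 3 * h - 1
  · exact ⟨2 * (l - 2 * h), by omega, by omega,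
      Or.inl (by unfold UA; (repeat (first | rw [if_pos (by omega)] | rw [if_neg (by omega)])) <;>
        (first | omega | (split_ifs <;> omega)))⟩
  by_cases c14 : l ≤ 3 * h + h / 2 - 1
  · exact ⟨2 * (l - 3 * h) + 3, by omega, by omega,
      Or.inr (by unfold WA; (repeat (first | rw [if_pos (by omega)] | rw [if_neg (by omega)])) <;>
        (first | omega | (split_ifs <;> omega)))⟩
  by_cases c15 : l = 3 * h + h / 2
  · exact ⟨h + 2, by omega, by omega,
      Or.inr (by unfold WA; (repeat (first | rw [if_pos (by omega)] | rw [if_neg (by omega)])) <;>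
        (first | omega | (split_ifs <;> omega)))⟩
  by_cases c16 : l = 3 * h + h / 2 + 1
  · exact ⟨h + 3, by omega, by omega,
      Or.inl (by unfold UA; (repeat (first | rw [if_pos (by omega)] | rw [if_neg (by omega)])) <;>
        (first | omega | (split_ifs <;> omega)))⟩
  by_cases c17 : l ≤ 4 * h - 1
  · exact ⟨2 * (l - 3 * h) + 1, by omega, by omega,
      Or.inl (by unfold UA; (repeat (first | rw [if_pos (by omega)] | rw [if_neg (by omega)])) <;>
        (first | omega | (split_ifs <;> omega)))⟩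
  · exact ⟨2, by omega, by omega,
      Or.inr (by unfold WA; (repeat (first | rw [if_pos (by omega)] | rw [if_neg (by omega)])) <;>
        (first | omega | (split_ifs <;> omega)))⟩

theorem famA_e (h : ℕ) (h4 : 6 ≤ h) (he : h % 2 = 0) (t : ℕ) (h1 : h + 3 ≤ t)
    (h2 : t < h + 3 + (3 * (2 * h) - 2)) : ∃ i, 1 ≤ i ∧
      ((i ≤ 2 * h ∧ UA h i + WA h i = t) ∨ (i + 1 ≤ 2 * h ∧ UA h i + UA h (i + 1) = t) ∨
        (i + 1 ≤ 2 * h ∧ WA h i + WA h (i + 1) = t)) := by
  by_cases c1 : t = h + 3
  · exact ⟨h + 1, by omega,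
      Or.inr (Or.inl ⟨by omega, by unfold UA; (repeat (first | rw [if_pos (by omega)] | rw [if_neg (by omega)])) <;>
        (first | omega | (split_ifs <;> omega))⟩)⟩
  by_cases c2 : t ≤ 2 * h + 1
  · exact ⟨t - h - 1, by omega,
      Or.inr (Or.inl ⟨by omega, by unfold UA; (repeat (first | rw [if_pos (by omega)] | rw [if_neg (by omega)])) <;>
        (first | omega | (split_ifs <;> omega))⟩)⟩
  by_cases c3 : t = 2 * h + 2
  · exact ⟨1, by omega,
      Or.inl ⟨by omega, by unfold UA WA; (repeat (first | rw [if_pos (by omega)] | rw [if_neg (by omega)])) <;>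
        (first | omega | (split_ifs <;> omega))⟩⟩
  by_cases c4 : t = 2 * h + 3
  · exact ⟨1, by omega,
      Or.inr (Or.inl ⟨by omega, by unfold UA; (repeat (first | rw [if_pos (by omega)] | rw [if_neg (by omega)])) <;>
        (first | omega | (split_ifs <;> omega))⟩)⟩
  by_cases c5 : t = 2 * h + 4
  · exact ⟨2, by omega,
      Or.inr (Or.inl ⟨by omega, by unfold UA; (repeat (first | rw [if_pos (by omega)] | rw [if_neg (by omega)])) <;>
        (first | omega | (split_ifs <;> omega))⟩)⟩
  by_cases c6 : t ≤ 3 * h - 1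
  · exact ⟨t - h - 1, by omega,
      Or.inr (Or.inr ⟨by omega, by unfold WA; (repeat (first | rw [if_pos (by omega)] | rw [if_neg (by omega)])) <;>
        (first | omega | (split_ifs <;> omega))⟩)⟩
  by_cases c7 : t = 3 * h
  · exact ⟨2 * h - 1, by omega,
      Or.inr (Or.inr ⟨by omega, by unfold WA; (repeat (first | rw [if_pos (by omega)] | rw [if_neg (by omega)])) <;>
        (first | omega | (split_ifs <;> omega))⟩)⟩
  by_cases c8 : t = 3 * h + 1
  · exact ⟨2 * h, by omega,
      Or.inl ⟨by omega, by unfold UA WA; (repeat (first | rw [if_pos (by omega)] | rw [if_neg (by omega)])) <;>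
        (first | omega | (split_ifs <;> omega))⟩⟩
  by_cases c9 : t = 3 * h + 2
  · exact ⟨3, by omega,
      Or.inl ⟨by omega, by unfold UA WA; (repeat (first | rw [if_pos (by omega)] | rw [if_neg (by omega)])) <;>
        (first | omega | (split_ifs <;> omega))⟩⟩
  by_cases c10 : t = 3 * h + 3
  · exact ⟨h + 3, by omega,
      Or.inr (Or.inr ⟨by omega, by unfold WA; (repeat (first | rw [if_pos (by omega)] | rw [if_neg (by omega)])) <;>
        (first | omega | (split_ifs <;> omega))⟩)⟩
  by_cases c11 : t ≤ 4 * h + 1 ∧ t % 2 = 0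
  · exact ⟨t - 3 * h + 1, by omega,
      Or.inl ⟨by omega, by unfold UA WA; (repeat (first | rw [if_pos (by omega)] | rw [if_neg (by omega)])) <;>
        (first | omega | (split_ifs <;> omega))⟩⟩
  by_cases c12 : t ≤ 4 * h + 1
  · exact ⟨t - 3 * h - 1, by omega,
      Or.inl ⟨by omega, by unfold UA WA; (repeat (first | rw [if_pos (by omega)] | rw [if_neg (by omega)])) <;>
        (first | omega | (split_ifs <;> omega))⟩⟩
  by_cases c13 : t = 4 * h + 2
  · exact ⟨h + 2, by omega,
      Or.inl ⟨by omega, by unfold UA WA; (repeat (first | rw [if_pos (by omega)] | rw [if_neg (by omega)])) <;>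
        (first | omega | (split_ifs <;> omega))⟩⟩
  by_cases c14 : t = 4 * h + 3
  · exact ⟨h + 2, by omega,
      Or.inr (Or.inl ⟨by omega, by unfold UA; (repeat (first | rw [if_pos (by omega)] | rw [if_neg (by omega)])) <;>
        (first | omega | (split_ifs <;> omega))⟩)⟩
  by_cases c15 : t ≤ 5 * h - 1
  · exact ⟨t - 3 * h, by omega,
      Or.inl ⟨by omega, by unfold UA WA; (repeat (first | rw [if_pos (by omega)] | rw [if_neg (by omega)])) <;>
        (first | omega | (split_ifs <;> omega))⟩⟩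
  by_cases c16 : t = 5 * h
  · exact ⟨2 * h - 1, by omega,
      Or.inr (Or.inl ⟨by omega, by unfold UA; (repeat (first | rw [if_pos (by omega)] | rw [if_neg (by omega)])) <;>
        (first | omega | (split_ifs <;> omega))⟩)⟩
  by_cases c17 : t = 5 * h + 1
  · exact ⟨h + 2, by omega,
      Or.inr (Or.inr ⟨by omega, by unfold WA; (repeat (first | rw [if_pos (by omega)] | rw [if_neg (by omega)])) <;>
        (first | omega | (split_ifs <;> omega))⟩)⟩
  by_cases c18 : t = 5 * h + 2
  · exact ⟨h + 3, by omega,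
      Or.inl ⟨by omega, by unfold UA WA; (repeat (first | rw [if_pos (by omega)] | rw [if_neg (by omega)])) <;>
        (first | omega | (split_ifs <;> omega))⟩⟩
  by_cases c19 : t ≤ 6 * h
  · exact ⟨t - 5 * h, by omega,
      Or.inr (Or.inr ⟨by omega, by unfold WA; (repeat (first | rw [if_pos (by omega)] | rw [if_neg (by omega)])) <;>
        (first | omega | (split_ifs <;> omega))⟩)⟩
  by_cases c20 : t = 6 * h + 1
  · exact ⟨1, by omega,
      Or.inr (Or.inr ⟨by omega, by unfold WA; (repeat (first | rw [if_pos (by omega)] | rw [if_neg (by omega)])) <;>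
        (first | omega | (split_ifs <;> omega))⟩)⟩
  by_cases c21 : t = 6 * h + 2
  · exact ⟨2, by omega,
      Or.inl ⟨by omega, by unfold UA WA; (repeat (first | rw [if_pos (by omega)] | rw [if_neg (by omega)])) <;>
        (first | omega | (split_ifs <;> omega))⟩⟩
  by_cases c22 : t = 6 * h + 3
  · exact ⟨h + 3, by omega,
      Or.inr (Or.inl ⟨by omega, by unfold UA; (repeat (first | rw [if_pos (by omega)] | rw [if_neg (by omega)])) <;>
        (first | omega | (split_ifs <;> omega))⟩)⟩
  by_cases c23 : t ≤ 7 * h - 2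
  · exact ⟨t - 5 * h, by omega,
      Or.inr (Or.inl ⟨by omega, by unfold UA; (repeat (first | rw [if_pos (by omega)] | rw [if_neg (by omega)])) <;>
        (first | omega | (split_ifs <;> omega))⟩)⟩
  by_cases c24 : t = 7 * h - 1
  · exact ⟨h + 1, by omega,
      Or.inr (Or.inr ⟨by omega, by unfold WA; (repeat (first | rw [if_pos (by omega)] | rw [if_neg (by omega)])) <;>
        (first | omega | (split_ifs <;> omega))⟩)⟩
  · exact ⟨2, by omega,
      Or.inr (Or.inr ⟨by omega, by unfold WA; (repeat (first | rw [if_pos (by omega)] | rw [if_neg (by omega)])) <;>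
        (first | omega | (split_ifs <;> omega))⟩)⟩

theorem famA (h : ℕ) (h4 : 6 ≤ h) (he : h % 2 = 0) : IsSuperEdgeMagic (ladder (2 * h)) :=
  ladder_sem (2 * h) (h + 3) (UA h) (WA h) (famA_v h h4 he) (famA_e h h4 he)

/-! ### The family `n = 2 h`, `h ≥ 5` odd -/

/-- First row for odd `h`. -/
def UB (h i : ℕ) : ℕ :=
  if i ≤ h - 3 then (if i % 2 = 1 then (i + 1) / 2 else h + 1 + i / 2)
  else if i = h - 2 then h + 1 + h / 2
  else if i = h - 1 then 3 * h + h / 2
  else if i ≤ 2 * h - 4 then (if i % 2 = 1 then h + 1 + (i + 1) / 2 else i / 2)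
  else if i = 2 * h - 3 then 4 * h
  else if i = 2 * h - 2 then 3 * h - 1
  else if i = 2 * h - 1 then 2 * h
  else h + 1

/-- Second row for odd `h`. -/
def WB (h i : ℕ) : ℕ :=
  if i ≤ h - 3 then (if i % 2 = 1 then 3 * h + 1 + (i - 1) / 2 else 2 * h + i / 2)
  else if i = h - 2 then h / 2
  else if i = h - 1 then 3 * h + h / 2 + 1
  else if i ≤ 2 * h - 3 then (if i % 2 = 1 then 2 * h + (i - 1) / 2 else 3 * h + 1 + i / 2)
  else if i = 2 * h - 2 then 3 * h
  else if i = 2 * h - 1 then h - 1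
  else h

theorem famB_v (h : ℕ) (h4 : 5 ≤ h) (he : h % 2 = 1) (l : ℕ) (h1 : 1 ≤ l) (h2 : l ≤ 2 * (2 * h)) :
    ∃ i, 1 ≤ i ∧ i ≤ 2 * h ∧ (UB h i = l ∨ WB h i = l) := by
  by_cases c1 : l ≤ h / 2 - 1
  · exact ⟨2 * l - 1, by omega, by omega,
      Or.inl (by unfold UB; (repeat (first | rw [if_pos (by omega)] | rw [if_neg (by omega)])) <;>
        (first | omega | (split_ifs <;> omega)))⟩
  by_cases c2 : l = h / 2
  · exact ⟨h - 2, by omega, by omega,
      Or.inr (by unfold WB; (repeat (first | rw [if_pos (by omega)] | rw [if_neg (by omega)])) <;>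
        (first | omega | (split_ifs <;> omega)))⟩
  by_cases c3 : l ≤ h - 2
  · exact ⟨2 * l, by omega, by omega,
      Or.inl (by unfold UB; (repeat (first | rw [if_pos (by omega)] | rw [if_neg (by omega)])) <;>
        (first | omega | (split_ifs <;> omega)))⟩
  by_cases c4 : l = h - 1
  · exact ⟨2 * h - 1, by omega, by omega,
      Or.inr (by unfold WB; (repeat (first | rw [if_pos (by omega)] | rw [if_neg (by omega)])) <;>
        (first | omega | (split_ifs <;> omega)))⟩
  by_cases c5 : l = h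
  · exact ⟨2 * h, by omega, by omega,
      Or.inr (by unfold WB; (repeat (first | rw [if_pos (by omega)] | rw [if_neg (by omega)])) <;>
        (first | omega | (split_ifs <;> omega)))⟩
  by_cases c6 : l = h + 1
  · exact ⟨2 * h, by omega, by omega,
      Or.inl (by unfold UB; (repeat (first | rw [if_pos (by omega)] | rw [if_neg (by omega)])) <;>
        (first | omega | (split_ifs <;> omega)))⟩
  by_cases c7 : l ≤ h + h / 2
  · exact ⟨2 * (l - h - 1), by omega, by omega,
      Or.inl (by unfold UB; (repeat (first | rw [if_pos (by omega)] | rw [if_neg (by omega)])) <;>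
        (first | omega | (split_ifs <;> omega)))⟩
  by_cases c8 : l = h + h / 2 + 1
  · exact ⟨h - 2, by omega, by omega,
      Or.inl (by unfold UB; (repeat (first | rw [if_pos (by omega)] | rw [if_neg (by omega)])) <;>
        (first | omega | (split_ifs <;> omega)))⟩
  by_cases c9 : l ≤ 2 * h - 1
  · exact ⟨2 * (l - h - 1) - 1, by omega, by omega,
      Or.inl (by unfold UB; (repeat (first | rw [if_pos (by omega)] | rw [if_neg (by omega)])) <;>
        (first | omega | (split_ifs <;> omega)))⟩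
  by_cases c10 : l = 2 * h
  · exact ⟨2 * h - 1, by omega, by omega,
      Or.inl (by unfold UB; (repeat (first | rw [if_pos (by omega)] | rw [if_neg (by omega)])) <;>
        (first | omega | (split_ifs <;> omega)))⟩
  by_cases c11 : l ≤ 2 * h + h / 2 - 1
  · exact ⟨2 * (l - 2 * h), by omega, by omega,
      Or.inr (by unfold WB; (repeat (first | rw [if_pos (by omega)] | rw [if_neg (by omega)])) <;>
        (first | omega | (split_ifs <;> omega)))⟩
  by_cases c12 : l ≤ 3 * h - 2
  · exact ⟨2 * (l - 2 * h) + 1, by omega, by omega,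
      Or.inr (by unfold WB; (repeat (first | rw [if_pos (by omega)] | rw [if_neg (by omega)])) <;>
        (first | omega | (split_ifs <;> omega)))⟩
  by_cases c13 : l = 3 * h - 1
  · exact ⟨2 * h - 2, by omega, by omega,
      Or.inl (by unfold UB; (repeat (first | rw [if_pos (by omega)] | rw [if_neg (by omega)])) <;>
        (first | omega | (split_ifs <;> omega)))⟩
  by_cases c14 : l = 3 * h
  · exact ⟨2 * h - 2, by omega, by omega,
      Or.inr (by unfold WB; (repeat (first | rw [if_pos (by omega)] | rw [if_neg (by omega)])) <;>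
        (first | omega | (split_ifs <;> omega)))⟩
  by_cases c15 : l ≤ 3 * h + h / 2 - 1
  · exact ⟨2 * (l - 3 * h) - 1, by omega, by omega,
      Or.inr (by unfold WB; (repeat (first | rw [if_pos (by omega)] | rw [if_neg (by omega)])) <;>
        (first | omega | (split_ifs <;> omega)))⟩
  by_cases c16 : l = 3 * h + h / 2
  · exact ⟨h - 1, by omega, by omega,
      Or.inl (by unfold UB; (repeat (first | rw [if_pos (by omega)] | rw [if_neg (by omega)])) <;>
        (first | omega | (split_ifs <;> omega)))⟩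
  by_cases c17 : l = 3 * h + h / 2 + 1
  · exact ⟨h - 1, by omega, by omega,
      Or.inr (by unfold WB; (repeat (first | rw [if_pos (by omega)] | rw [if_neg (by omega)])) <;>
        (first | omega | (split_ifs <;> omega)))⟩
  by_cases c18 : l ≤ 4 * h - 1
  · exact ⟨2 * (l - 3 * h - 1), by omega, by omega,
      Or.inr (by unfold WB; (repeat (first | rw [if_pos (by omega)] | rw [if_neg (by omega)])) <;>
        (first | omega | (split_ifs <;> omega)))⟩
  · exact ⟨2 * h - 3, by omega, by omega,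
      Or.inl (by unfold UB; (repeat (first | rw [if_pos (by omega)] | rw [if_neg (by omega)])) <;>
        (first | omega | (split_ifs <;> omega)))⟩

theorem famB_e (h : ℕ) (h4 : 5 ≤ h) (he : h % 2 = 1) (t : ℕ) (h1 : h + 3 ≤ t)
    (h2 : t < h + 3 + (3 * (2 * h) - 2)) : ∃ i, 1 ≤ i ∧
      ((i ≤ 2 * h ∧ UB h i + WB h i = t) ∨ (i + 1 ≤ 2 * h ∧ UB h i + UB h (i + 1) = t) ∨
        (i + 1 ≤ 2 * h ∧ WB h i + WB h (i + 1) = t)) := by
  by_cases c1 : t ≤ 2 * h - 2
  · exact ⟨t - h - 2, by omega,
      Or.inr (Or.inl ⟨by omega, by unfold UB; (repeat (first | rw [if_pos (by omega)] | rw [if_neg (by omega)])) <;>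
        (first | omega | (split_ifs <;> omega))⟩)⟩
  by_cases c2 : t = 2 * h - 1
  · exact ⟨2 * h - 1, by omega,
      Or.inr (Or.inr ⟨by omega, by unfold WB; (repeat (first | rw [if_pos (by omega)] | rw [if_neg (by omega)])) <;>
        (first | omega | (split_ifs <;> omega))⟩)⟩
  by_cases c3 : t = 2 * h
  · exact ⟨h - 2, by omega,
      Or.inl ⟨by omega, by unfold UB WB; (repeat (first | rw [if_pos (by omega)] | rw [if_neg (by omega)])) <;>
        (first | omega | (split_ifs <;> omega))⟩⟩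
  by_cases c4 : t = 2 * h + 1
  · exact ⟨2 * h, by omega,
      Or.inl ⟨by omega, by unfold UB WB; (repeat (first | rw [if_pos (by omega)] | rw [if_neg (by omega)])) <;>
        (first | omega | (split_ifs <;> omega))⟩⟩
  by_cases c5 : t ≤ 3 * h - 3
  · exact ⟨t - h - 2, by omega,
      Or.inr (Or.inl ⟨by omega, by unfold UB; (repeat (first | rw [if_pos (by omega)] | rw [if_neg (by omega)])) <;>
        (first | omega | (split_ifs <;> omega))⟩)⟩
  by_cases c6 : t = 3 * h - 2
  · exact ⟨h - 3, by omega,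
      Or.inr (Or.inr ⟨by omega, by unfold WB; (repeat (first | rw [if_pos (by omega)] | rw [if_neg (by omega)])) <;>
        (first | omega | (split_ifs <;> omega))⟩)⟩
  by_cases c7 : t = 3 * h - 1
  · exact ⟨2 * h - 1, by omega,
      Or.inl ⟨by omega, by unfold UB WB; (repeat (first | rw [if_pos (by omega)] | rw [if_neg (by omega)])) <;>
        (first | omega | (split_ifs <;> omega))⟩⟩
  by_cases c8 : t = 3 * h
  · exact ⟨h - 3, by omega,
      Or.inr (Or.inl ⟨by omega, by unfold UB; (repeat (first | rw [if_pos (by omega)] | rw [if_neg (by omega)])) <;>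
        (first | omega | (split_ifs <;> omega))⟩)⟩
  by_cases c9 : t = 3 * h + 1
  · exact ⟨2 * h - 1, by omega,
      Or.inr (Or.inl ⟨by omega, by unfold UB; (repeat (first | rw [if_pos (by omega)] | rw [if_neg (by omega)])) <;>
        (first | omega | (split_ifs <;> omega))⟩)⟩
  by_cases c10 : t ≤ 4 * h - 2
  · exact ⟨t - 3 * h - 1, by omega,
      Or.inl ⟨by omega, by unfold UB WB; (repeat (first | rw [if_pos (by omega)] | rw [if_neg (by omega)])) <;>
        (first | omega | (split_ifs <;> omega))⟩⟩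
  by_cases c11 : t = 4 * h - 1
  · exact ⟨2 * h - 2, by omega,
      Or.inr (Or.inr ⟨by omega, by unfold WB; (repeat (first | rw [if_pos (by omega)] | rw [if_neg (by omega)])) <;>
        (first | omega | (split_ifs <;> omega))⟩)⟩
  by_cases c12 : t = 4 * h
  · exact ⟨h - 2, by omega,
      Or.inr (Or.inr ⟨by omega, by unfold WB; (repeat (first | rw [if_pos (by omega)] | rw [if_neg (by omega)])) <;>
        (first | omega | (split_ifs <;> omega))⟩)⟩
  by_cases c13 : t ≤ 5 * h - 3
  · exact ⟨t - 3 * h - 1, by omega,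
      Or.inl ⟨by omega, by unfold UB WB; (repeat (first | rw [if_pos (by omega)] | rw [if_neg (by omega)])) <;>
        (first | omega | (split_ifs <;> omega))⟩⟩
  by_cases c14 : t = 5 * h - 2
  · exact ⟨2 * h - 4, by omega,
      Or.inr (Or.inl ⟨by omega, by unfold UB; (repeat (first | rw [if_pos (by omega)] | rw [if_neg (by omega)])) <;>
        (first | omega | (split_ifs <;> omega))⟩)⟩
  by_cases c15 : t = 5 * h - 1
  · exact ⟨2 * h - 2, by omega,
      Or.inr (Or.inl ⟨by omega, by unfold UB; (repeat (first | rw [if_pos (by omega)] | rw [if_neg (by omega)])) <;>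
        (first | omega | (split_ifs <;> omega))⟩)⟩
  by_cases c16 : t = 5 * h
  · exact ⟨h - 2, by omega,
      Or.inr (Or.inl ⟨by omega, by unfold UB; (repeat (first | rw [if_pos (by omega)] | rw [if_neg (by omega)])) <;>
        (first | omega | (split_ifs <;> omega))⟩)⟩
  by_cases c17 : t = 5 * h + 1
  · exact ⟨h - 1, by omega,
      Or.inr (Or.inl ⟨by omega, by unfold UB; (repeat (first | rw [if_pos (by omega)] | rw [if_neg (by omega)])) <;>
        (first | omega | (split_ifs <;> omega))⟩)⟩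
  by_cases c18 : t ≤ 6 * h - 3
  · exact ⟨t - 5 * h - 1, by omega,
      Or.inr (Or.inr ⟨by omega, by unfold WB; (repeat (first | rw [if_pos (by omega)] | rw [if_neg (by omega)])) <;>
        (first | omega | (split_ifs <;> omega))⟩)⟩
  by_cases c19 : t = 6 * h - 2
  · exact ⟨2 * h - 3, by omega,
      Or.inr (Or.inr ⟨by omega, by unfold WB; (repeat (first | rw [if_pos (by omega)] | rw [if_neg (by omega)])) <;>
        (first | omega | (split_ifs <;> omega))⟩)⟩
  by_cases c20 : t = 6 * h - 1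
  · exact ⟨2 * h - 2, by omega,
      Or.inl ⟨by omega, by unfold UB WB; (repeat (first | rw [if_pos (by omega)] | rw [if_neg (by omega)])) <;>
        (first | omega | (split_ifs <;> omega))⟩⟩
  by_cases c21 : t = 6 * h
  · exact ⟨h - 1, by omega,
      Or.inr (Or.inr ⟨by omega, by unfold WB; (repeat (first | rw [if_pos (by omega)] | rw [if_neg (by omega)])) <;>
        (first | omega | (split_ifs <;> omega))⟩)⟩
  by_cases c22 : t ≤ 7 * h - 3
  · exact ⟨t - 5 * h - 1, by omega,
      Or.inr (Or.inr ⟨by omega, by unfold WB; (repeat (first | rw [if_pos (by omega)] | rw [if_neg (by omega)])) <;>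
        (first | omega | (split_ifs <;> omega))⟩)⟩
  by_cases c23 : t = 7 * h - 2
  · exact ⟨2 * h - 3, by omega,
      Or.inl ⟨by omega, by unfold UB WB; (repeat (first | rw [if_pos (by omega)] | rw [if_neg (by omega)])) <;>
        (first | omega | (split_ifs <;> omega))⟩⟩
  by_cases c24 : t = 7 * h - 1
  · exact ⟨2 * h - 3, by omega,
      Or.inr (Or.inl ⟨by omega, by unfold UB; (repeat (first | rw [if_pos (by omega)] | rw [if_neg (by omega)])) <;>
        (first | omega | (split_ifs <;> omega))⟩)⟩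
  · exact ⟨h - 1, by omega,
      Or.inl ⟨by omega, by unfold UB WB; (repeat (first | rw [if_pos (by omega)] | rw [if_neg (by omega)])) <;>
        (first | omega | (split_ifs <;> omega))⟩⟩

theorem famB (h : ℕ) (h4 : 5 ≤ h) (he : h % 2 = 1) : IsSuperEdgeMagic (ladder (2 * h)) :=
  ladder_sem (2 * h) (h + 3) (UB h) (WB h) (famB_v h h4 he) (famB_e h h4 he)

/-! ### Small cases -/

/-- `L_4`. -/
def U4 (i : ℕ) : ℕ := if i = 1 then 5 else if i = 2 then 1 else if i = 3 then 3 else 4
/-- `L_4`. -/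
def W4 (i : ℕ) : ℕ := if i = 1 then 6 else if i = 2 then 7 else if i = 3 then 2 else 8
/-- `L_6`. -/
def U6 (i : ℕ) : ℕ := if i = 1 then 11 else if i = 2 then 9 else if i = 3 then 6 else
  if i = 4 then 3 else if i = 5 then 2 else 12
/-- `L_6`. -/
def W6 (i : ℕ) : ℕ := if i = 1 then 7 else if i = 2 then 10 else if i = 3 then 1 else
  if i = 4 then 5 else if i = 5 then 8 else 4

/-- `L_8`. -/
def U8 (i : ℕ) : ℕ := if i = 1 then 14 else if i = 2 then 13 else if i = 3 then 11 else
  if i = 4 then 6 else if i = 5 then 10 else if i = 6 then 1 else if i = 7 then 7 else 3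
/-- `L_8`. -/
def W8 (i : ℕ) : ℕ := if i = 1 then 12 else if i = 2 then 9 else if i = 3 then 4 else
  if i = 4 then 8 else if i = 5 then 15 else if i = 6 then 5 else if i = 7 then 2 else 16

theorem sem4 : IsSuperEdgeMagic (ladder 4) := by
  refine ladder_sem 4 4 U4 W4 ?_ ?_
  · have : ∀ l ∈ Finset.Icc 1 8, ∃ i ∈ Finset.Icc 1 4, (U4 i = l ∨ W4 i = l) := by decide
    intro l h1 h2
    obtain ⟨i, hi, h⟩ := this l (Finset.mem_Icc.2 ⟨h1, h2⟩)
    rw [Finset.mem_Icc] at hi
    exact ⟨i, hi.1, hi.2, h⟩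
  · have : ∀ t ∈ Finset.Ico 4 14, ∃ i ∈ Finset.Icc 1 4, ((i ≤ 4 ∧ U4 i + W4 i = t) ∨
        (i + 1 ≤ 4 ∧ U4 i + U4 (i + 1) = t) ∨ (i + 1 ≤ 4 ∧ W4 i + W4 (i + 1) = t)) := by decide
    intro t h1 h2
    obtain ⟨i, hi, h⟩ := this t (Finset.mem_Ico.2 ⟨h1, by omega⟩)
    rw [Finset.mem_Icc] at hi
    exact ⟨i, hi.1, h⟩

theorem sem6 : IsSuperEdgeMagic (ladder 6) := by
  refine ladder_sem 6 5 U6 W6 ?_ ?_
  · have : ∀ l ∈ Finset.Icc 1 12, ∃ i ∈ Finset.Icc 1 6, (U6 i = l ∨ W6 i = l) := by decide
    intro l h1 h2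
    obtain ⟨i, hi, h⟩ := this l (Finset.mem_Icc.2 ⟨h1, h2⟩)
    rw [Finset.mem_Icc] at hi
    exact ⟨i, hi.1, hi.2, h⟩
  · have : ∀ t ∈ Finset.Ico 5 21, ∃ i ∈ Finset.Icc 1 6, ((i ≤ 6 ∧ U6 i + W6 i = t) ∨
        (i + 1 ≤ 6 ∧ U6 i + U6 (i + 1) = t) ∨ (i + 1 ≤ 6 ∧ W6 i + W6 (i + 1) = t)) := by decide
    intro t h1 h2
    obtain ⟨i, hi, h⟩ := this t (Finset.mem_Ico.2 ⟨h1, by omega⟩)
    rw [Finset.mem_Icc] at hi
    exact ⟨i, hi.1, h⟩

theorem sem8 : IsSuperEdgeMagic (ladder 8) := by
  refine ladder_sem 8 6 U8 W8 ?_ ?_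
  · have : ∀ l ∈ Finset.Icc 1 16, ∃ i ∈ Finset.Icc 1 8, (U8 i = l ∨ W8 i = l) := by decide
    intro l h1 h2
    obtain ⟨i, hi, h⟩ := this l (Finset.mem_Icc.2 ⟨h1, h2⟩)
    rw [Finset.mem_Icc] at hi
    exact ⟨i, hi.1, hi.2, h⟩
  · have : ∀ t ∈ Finset.Ico 6 28, ∃ i ∈ Finset.Icc 1 8, ((i ≤ 8 ∧ U8 i + W8 i = t) ∨
        (i + 1 ≤ 8 ∧ U8 i + U8 (i + 1) = t) ∨ (i + 1 ≤ 8 ∧ W8 i + W8 (i + 1) = t)) := by decide
    intro t h1 h2
    obtain ⟨i, hi, h⟩ := this t (Finset.mem_Ico.2 ⟨h1, by omega⟩)
    rw [Finset.mem_Icc] at hi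
    exact ⟨i, hi.1, h⟩

/-- `L_2`, the 4-cycle, is not super edge-magic. -/
theorem not_sem2 : ¬ IsSuperEdgeMagic (ladder 2) := by
  rintro ⟨f, σ, ⟨hb, hm⟩, hs⟩
  have hcV : Nat.card (Fin 2 × Fin 2) = 4 := by simp
  have hcE : Nat.card (ladder 2).edgeSet ≤ 4 := ladder_card_edges 2
  rw [hcV] at hb hs
  have hinj : Function.Injective f := by
    intro x y hxy
    exact hb.injOn (Set.mem_univ x) (Set.mem_univ y) hxy
  have hV : ∀ v : Fin 2 × Fin 2, 1 ≤ f (Sum.inl v) ∧ f (Sum.inl v) ≤ 4 := by
    intro v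
    have : f (Sum.inl v) ∈ Set.Icc 1 4 := by
      rw [← hs]
      exact ⟨_, ⟨v, rfl⟩, rfl⟩
    exact this
  have hE : ∀ e : (ladder 2).edgeSet, 5 ≤ f (Sum.inr e) ∧ f (Sum.inr e) ≤ 8 := by
    intro e
    have h1 := hb.mapsTo (Set.mem_univ (Sum.inr e))
    rw [Set.mem_Icc] at h1
    refine ⟨?_, by omega⟩
    by_contra h2
    have h3 : f (Sum.inr e) ∈ Set.Icc 1 4 := ⟨h1.1, by omega⟩
    rw [← hs] at h3
    obtain ⟨_, ⟨v, rfl⟩, h4⟩ := h3
    have := hinj h4
    simp at this
  have ab : (ladder 2).Adj (0, 0) (0, 1) := by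
    unfold ladder; rw [boxProd_adj]; simp [pathGraph_adj]
  have bc : (ladder 2).Adj (0, 1) (1, 1) := by
    unfold ladder; rw [boxProd_adj]; simp [pathGraph_adj]
  have cd : (ladder 2).Adj (1, 1) (1, 0) := by
    unfold ladder; rw [boxProd_adj]; simp [pathGraph_adj]
  have da : (ladder 2).Adj (1, 0) (0, 0) := by
    unfold ladder; rw [boxProd_adj]; simp [pathGraph_adj]
  have m1 := hm _ _ ab
  have m2 := hm _ _ bc
  have m3 := hm _ _ cd
  have m4 := hm _ _ da
  have a1 := hV (0, 0)
  have a2 := hV (0, 1)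
  have a3 := hV (1, 1)
  have a4 := hV (1, 0)
  have b1 := hE ⟨s((0, 0), (0, 1)), ab⟩
  have b2 := hE ⟨s((0, 1), (1, 1)), bc⟩
  have b3 := hE ⟨s((1, 1), (1, 0)), cd⟩
  have b4 := hE ⟨s((1, 0), (0, 0)), da⟩
  have n12 : f (Sum.inl (0, 0)) ≠ f (Sum.inl (0, 1)) := fun h => by have := hinj h; simp at this
  have n13 : f (Sum.inl (0, 0)) ≠ f (Sum.inl (1, 1)) := fun h => by have := hinj h; simp at this
  have n14 : f (Sum.inl (0, 0)) ≠ f (Sum.inl (1, 0)) := fun h => by have := hinj h; simp at this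
  have n23 : f (Sum.inl (0, 1)) ≠ f (Sum.inl (1, 1)) := fun h => by have := hinj h; simp at this
  have n24 : f (Sum.inl (0, 1)) ≠ f (Sum.inl (1, 0)) := fun h => by have := hinj h; simp at this
  have n34 : f (Sum.inl (1, 1)) ≠ f (Sum.inl (1, 0)) := fun h => by have := hinj h; simp at this
  have e12 : f (Sum.inr ⟨s((0, 0), (0, 1)), ab⟩) ≠ f (Sum.inr ⟨s((0, 1), (1, 1)), bc⟩) :=
    fun h => by have := hinj h; simp at this
  have e13 : f (Sum.inr ⟨s((0, 0), (0, 1)), ab⟩) ≠ f (Sum.inr ⟨s((1, 1), (1, 0)), cd⟩) :=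
    fun h => by have := hinj h; simp at this
  have e14 : f (Sum.inr ⟨s((0, 0), (0, 1)), ab⟩) ≠ f (Sum.inr ⟨s((1, 0), (0, 0)), da⟩) :=
    fun h => by have := hinj h; simp at this
  have e23 : f (Sum.inr ⟨s((0, 1), (1, 1)), bc⟩) ≠ f (Sum.inr ⟨s((1, 1), (1, 0)), cd⟩) :=
    fun h => by have := hinj h; simp at this
  have e24 : f (Sum.inr ⟨s((0, 1), (1, 1)), bc⟩) ≠ f (Sum.inr ⟨s((1, 0), (0, 0)), da⟩) :=
    fun h => by have := hinj h; simp at this
  have e34 : f (Sum.inr ⟨s((1, 1), (1, 0)), cd⟩) ≠ f (Sum.inr ⟨s((1, 0), (0, 0)), da⟩) :=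
    fun h => by have := hinj h; simp at this
  have s1 : f (Sum.inl (0, 0)) + f (Sum.inl (0, 1)) + f (Sum.inl (1, 1)) + f (Sum.inl (1, 0))
      = 10 := by clear m1 m2 m3 m4 b1 b2 b3 b4 e12 e13 e14 e23 e24 e34 hm hb hs; omega
  have s2 : f (Sum.inr ⟨s((0, 0), (0, 1)), ab⟩) + f (Sum.inr ⟨s((0, 1), (1, 1)), bc⟩) +
      f (Sum.inr ⟨s((1, 1), (1, 0)), cd⟩) + f (Sum.inr ⟨s((1, 0), (0, 0)), da⟩) = 26 := by
    clear m1 m2 m3 m4 a1 a2 a3 a4 n12 n13 n14 n23 n24 n34 s1 hm hb hs; omega
  clear n12 n13 n14 n23 n24 n34 e12 e13 e14 e23 e24 e34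
  omega

/-- **Determination of the super edge-magic ladders of even length.** For even `n ≥ 2` the
ladder `L_n` is super edge-magic if and only if `n ≥ 4` (that is, for every even `n` except
`n = 2`). -/
theorem result (n : ℕ) (hn : 2 ≤ n) (he : Even n) : IsSuperEdgeMagic (ladder n) ↔ n ≠ 2 := by
  constructor
  · rintro h rfl
    exact not_sem2 h
  · intro h2
    obtain ⟨h, rfl⟩ := he
    have hh : h + h = 2 * h := by ring
    rw [hh]
    rcases Nat.lt_or_ge h 5 with h5 | h5
    · have : h = 2 ∨ h = 3 ∨ h = 4 := by omega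
      rcases this with rfl | rfl | rfl
      · exact sem4
      · exact sem6
      · exact sem8
    · rcases Nat.mod_two_eq_zero_or_one h with hp | hp
      · exact famA h (by omega) hp
      · exact famB h h5 hp

end Pool.Agent.Results.MP_4fbecc_co.LadderSEM
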